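import Pool.Agent.Y501.SY.StmV
import Pool.Agent.Y487.SY.Patch

/-!
# Project SYV: patching a one-form and its exterior derivative along a chart

Job 11225 of helper501, by helper891; adaptation of `Pool.Agent.Y949.SY.t_PATCH2` (helper949).
-/

set_option autoImplicit false

open Set Filter Topology MeasureTheory
open scoped Manifold ContDiff

noncomputable section

namespace Pool.Agent.Y891.SY

open Pool.Agent.Y501.SY
open Pool.Agent.Y455.SY (A B AB BA)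
open Pool.Agent.Y487.SY (patch_of_mem patch_of_notMem comp_chain)

theorem contDiffAt_extDeriv {d k : ℕ} {b : E d → (E d) [⋀^Fin k]→L[ℝ] ℝ} {p : E d}
    (h : ContDiffAt ℝ ∞ b p) : ContDiffAt ℝ ∞ (extDeriv b) p :=
  ((ContinuousAlternatingMap.alternatizeUncurryFinCLM ℝ (E d) ℝ).contDiff.contDiffAt).comp p
    (h.fderiv_right (by simp))

theorem pb_sub {d k : ℕ} {X : Type} [TopologicalSpace X] [ChartedSpace (E d) X] (φ : E d → X)
    (σ σ' : Form d X k) (p : E d) : pb φ (σ - σ') p = pb φ σ p - pb φ σ' p := by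
  ext v
  rfl

theorem t_PATCHP : S_PATCHP := by
  classical
  intro d X _ _ _ _ x₀ O K K' N' b' β σ₀ σ hO hOs hK' hKK hN' hN'O hkN' hb' hb'β hσ₀ hσ₀c hβ
    hσ hdβ
  have hcs : ContMDiffOn (𝓡 d) (𝓡 d) ∞ (chartAt (E d) x₀) (chartAt (E d) x₀).source :=
    contMDiffOn_chart
  have hcsym : ContMDiffOn (𝓡 d) (𝓡 d) ∞ (chartAt (E d) x₀).symm (chartAt (E d) x₀).target :=
    contMDiffOn_chart_symm
  have himt : chartAt (E d) x₀ '' O ⊆ (chartAt (E d) x₀).target := by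
    rintro _ ⟨x, hx, rfl⟩
    exact (chartAt (E d) x₀).map_source (hOs hx)
  have himg : IsOpen (chartAt (E d) x₀ '' (O ∩ K'ᶜ)) :=
    (chartAt (E d) x₀).isOpen_image_of_subset_source (hO.inter hK'.isOpen_compl)
      (inter_subset_left.trans hOs)
  have hsub : chartAt (E d) x₀ '' (O ∩ K'ᶜ) ⊆
      (chartAt (E d) x₀ '' O) \ (chartAt (E d) x₀ '' (K' ∩ O)) := by
    rintro _ ⟨x, hx, rfl⟩
    refine ⟨⟨x, hx.1, rfl⟩, ?_⟩
    rintro ⟨y, hy, hyx⟩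
    have hyx' : y = x := (chartAt (E d) x₀).injOn (hOs hy.2) (hOs hx.1) hyx
    exact hx.2 (hyx' ▸ hy.1)
  have hsymm : ∀ p ∈ chartAt (E d) x₀ '' O, (chartAt (E d) x₀).symm p ∈ O := by
    rintro _ ⟨x, hx, rfl⟩
    rw [(chartAt (E d) x₀).left_inv (hOs hx)]
    exact hx
  -- the compact set of `X` corresponding to `N'`
  obtain ⟨M, hM⟩ : ∃ M, M = (chartAt (E d) x₀).symm '' N' := ⟨_, rfl⟩
  have hMc : IsCompact M := by
    rw [hM]
    exact hN'.image_of_continuousOn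
      ((chartAt (E d) x₀).continuousOn_symm.mono (hN'O.trans himt))
  have hMcl : IsClosed M := hMc.isClosed
  have hMO : M ⊆ O := by
    rw [hM]
    rintro _ ⟨p, hp, rfl⟩
    exact hsymm p (hN'O hp)
  have hMN : ∀ x ∈ O, x ∉ M → chartAt (E d) x₀ x ∉ N' := by
    intro x hx hxM h
    apply hxM
    rw [hM]
    exact ⟨_, h, (chartAt (E d) x₀).left_inv (hOs hx)⟩
  -- the two-form in the chart
  obtain ⟨s', hs'⟩ : ∃ s' : E d → (E d) [⋀^Fin 2]→L[ℝ] ℝ, s' = fun p => if p ∈ N' then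
    pb (chartAt (E d) x₀).symm σ₀ p + extDeriv b' p else pb (chartAt (E d) x₀).symm σ p :=
    ⟨_, rfl⟩
  have hs'σ : ∀ p ∈ (chartAt (E d) x₀ '' O) \ N', s' p = pb (chartAt (E d) x₀).symm σ p := by
    intro p hp
    rw [hs']
    exact if_neg hp.2
  have hsG : ∀ p ∈ chartAt (E d) x₀ '' (O ∩ K'ᶜ),
      s' p = pb (chartAt (E d) x₀).symm σ₀ p + extDeriv b' p := by
    intro p hp
    by_cases hpN : p ∈ N'
    · rw [hs']
      exact if_pos hpN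
    · rw [hs'σ p ⟨(hsub hp).1, hpN⟩]
      have hU : IsOpen (chartAt (E d) x₀ '' (O ∩ K'ᶜ) ∩ N'ᶜ) :=
        himg.inter hN'.isClosed.isOpen_compl
      have hUt : chartAt (E d) x₀ '' (O ∩ K'ᶜ) ∩ N'ᶜ ⊆ (chartAt (E d) x₀).target :=
        fun q hq => himt (hsub hq.1).1
      have hav : ∀ q ∈ chartAt (E d) x₀ '' (O ∩ K'ᶜ) ∩ N'ᶜ, (chartAt (E d) x₀).symm q ∉ K := by
        rintro q ⟨⟨x, hx, rfl⟩, hq2⟩ h
        rw [(chartAt (E d) x₀).left_inv (hOs hx.1)] at h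
        exact hq2 (hkN' x h hx.2).2
      have h1 := hdβ _ (chartAt (E d) x₀).symm hU (hcsym.mono hUt) hav p ⟨hp, hpN⟩
      have h2 : b' =ᶠ[𝓝 p] pb (chartAt (E d) x₀).symm β := by
        filter_upwards [hU.mem_nhds ⟨hp, hpN⟩] with q hq
        exact hb'β q ⟨(hsub hq.1).1, hq.2⟩
      rw [h2.extDeriv_eq, h1, pb_sub]
      abel
  -- fourth claim
  have h4 : ∀ (k : ℕ) (s : E d → (E d) [⋀^Fin k]→L[ℝ] ℝ) (τ : Form d X k),
      ∀ p ∈ chartAt (E d) x₀ '' O, pb (chartAt (E d) x₀).symm (patch x₀ O s τ) p = s p := by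
    intro k s τ p hp
    unfold pb
    rw [patch_of_mem x₀ O s τ (hsymm p hp), (chartAt (E d) x₀).right_inv (himt hp)]
    ext v
    show s p (fun i => B x₀ p (A x₀ p (v i))) = s p v
    congr 1
    funext i
    exact BA x₀ (himt hp) (v i)
  -- third claim
  have h3a : ∀ (k : ℕ) (s : E d → (E d) [⋀^Fin k]→L[ℝ] ℝ) (τ τ' : Form d X k),
      ∀ p ∈ chartAt (E d) x₀ '' O, s p = pb (chartAt (E d) x₀).symm τ p →
      patch x₀ O s τ' ((chartAt (E d) x₀).symm p) = τ ((chartAt (E d) x₀).symm p) := by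
    intro k s τ τ' p hp hsp
    rw [patch_of_mem x₀ O s τ' (hsymm p hp), (chartAt (E d) x₀).right_inv (himt hp), hsp]
    ext v
    show (τ ((chartAt (E d) x₀).symm p) : (E d) [⋀^Fin k]→L[ℝ] ℝ)
      (fun i => A x₀ p (B x₀ p (v i))) = (τ ((chartAt (E d) x₀).symm p) :
        (E d) [⋀^Fin k]→L[ℝ] ℝ) v
    congr 1
    funext i
    exact AB x₀ (himt hp) (v i)
  have h3b : ∀ (k : ℕ) (s : E d → (E d) [⋀^Fin k]→L[ℝ] ℝ) (τ τ' : Form d X k), ∀ x ∈ O,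
      s (chartAt (E d) x₀ x) = pb (chartAt (E d) x₀).symm τ (chartAt (E d) x₀ x) →
      patch x₀ O s τ' x = τ x := by
    intro k s τ τ' x hx hs
    have h := h3a k s τ τ' (chartAt (E d) x₀ x) ⟨x, hx, rfl⟩ hs
    rw [(chartAt (E d) x₀).left_inv (hOs hx)] at h
    exact h
  have h3 : ∀ (k : ℕ) (s : E d → (E d) [⋀^Fin k]→L[ℝ] ℝ) (τ : Form d X k),
      (∀ p ∈ (chartAt (E d) x₀ '' O) \ N', s p = pb (chartAt (E d) x₀).symm τ p) →
      ∀ x, x ∉ O ∨ chartAt (E d) x₀ x ∉ N' → patch x₀ O s τ x = τ x := by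
    intro k s τ hs x hx
    by_cases hxO : x ∈ O
    · have hxN : chartAt (E d) x₀ x ∉ N' := by
        rcases hx with h | h
        · exact absurd hxO h
        · exact h
      exact h3b k s τ τ x hxO (hs _ ⟨⟨x, hxO, rfl⟩, hxN⟩)
    · exact patch_of_notMem x₀ O s τ hxO
  -- near the points which are sent into `O`
  have keyA : ∀ (k : ℕ) (s : E d → (E d) [⋀^Fin k]→L[ℝ] ℝ) (τ : Form d X k)
      (U : Set (E d)) (φ : E d → X), IsOpen U → ContMDiffOn (𝓡 d) (𝓡 d) ∞ φ U →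
      ∀ p₀ ∈ U, φ p₀ ∈ O → ContDiffAt ℝ ∞ (chartAt (E d) x₀ ∘ φ) p₀ ∧
        pb φ (patch x₀ O s τ) =ᶠ[𝓝 p₀] fun p => (s ((chartAt (E d) x₀ ∘ φ) p)).compContinuousLinearMap
          (fderiv ℝ (chartAt (E d) x₀ ∘ φ) p) := by
    intro k s τ U φ hU hφ p₀ hp₀ hpO
    have hU' : IsOpen (U ∩ φ ⁻¹' O) := hφ.continuousOn.isOpen_inter_preimage hU hO
    have hψm : ContMDiffOn (𝓡 d) (𝓡 d) ∞ (chartAt (E d) x₀ ∘ φ) (U ∩ φ ⁻¹' O) :=
      hcs.comp (hφ.mono inter_subset_left) fun p hp => hOs hp.2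
    have hψ : ContDiffOn ℝ ∞ (chartAt (E d) x₀ ∘ φ) (U ∩ φ ⁻¹' O) :=
      contMDiffOn_iff_contDiffOn.1 hψm
    refine ⟨hψ.contDiffAt (hU'.mem_nhds ⟨hp₀, hpO⟩), ?_⟩
    filter_upwards [hU'.mem_nhds ⟨hp₀, hpO⟩] with p hp
    have hφp : MDifferentiableAt (𝓡 d) (𝓡 d) φ p :=
      ((hφ p hp.1).contMDiffAt (hU.mem_nhds hp.1)).mdifferentiableAt (by simp)
    have hcp : MDifferentiableAt (𝓡 d) (𝓡 d) (chartAt (E d) x₀) (φ p) :=
      ((hcs _ (hOs hp.2)).contMDiffAt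
        ((chartAt (E d) x₀).open_source.mem_nhds (hOs hp.2))).mdifferentiableAt (by simp)
    rw [← comp_chain (s ((chartAt (E d) x₀ ∘ φ) p)) hcp hφp]
    unfold pb
    rw [patch_of_mem x₀ O s τ hp.2]
    rfl
  -- near the other points
  have keyB : ∀ (U : Set (E d)) (φ : E d → X), IsOpen U → ContMDiffOn (𝓡 d) (𝓡 d) ∞ φ U →
      (∀ p ∈ U, φ p ∉ K') → ∀ p₀ ∈ U, φ p₀ ∉ O → ∃ U' : Set (E d), IsOpen U' ∧ p₀ ∈ U' ∧
        U' ⊆ U ∧ (∀ p ∈ U', φ p ∉ K) ∧ ∀ (k : ℕ) (s : E d → (E d) [⋀^Fin k]→L[ℝ] ℝ)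
        (τ : Form d X k),
        (∀ p ∈ (chartAt (E d) x₀ '' O) \ N', s p = pb (chartAt (E d) x₀).symm τ p) →
        pb φ (patch x₀ O s τ) =ᶠ[𝓝 p₀] pb φ τ := by
    intro U φ hU hφ hφK p₀ hp₀ hpO
    have hU' : IsOpen (U ∩ φ ⁻¹' Mᶜ) :=
      hφ.continuousOn.isOpen_inter_preimage hU hMcl.isOpen_compl
    have hp₀' : p₀ ∈ U ∩ φ ⁻¹' Mᶜ := ⟨hp₀, fun h => hpO (hMO h)⟩
    have hav : ∀ p ∈ U ∩ φ ⁻¹' Mᶜ, φ p ∉ K := by
      rintro p ⟨hp1, hp2⟩ h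
      obtain ⟨h5, h6⟩ := hkN' _ h (hφK p hp1)
      exact hMN _ h5 hp2 h6
    refine ⟨U ∩ φ ⁻¹' Mᶜ, hU', hp₀', inter_subset_left, hav, fun k s τ hs => ?_⟩
    filter_upwards [hU'.mem_nhds hp₀'] with p hp
    unfold pb
    rw [h3 k s τ hs (φ p) ?_]
    by_cases h : φ p ∈ O
    · exact Or.inr (hMN _ h hp.2)
    · exact Or.inl h
  -- smoothness
  have hsm : ∀ (k : ℕ) (s : E d → (E d) [⋀^Fin k]→L[ℝ] ℝ) (τ : Form d X k),
      (∀ p ∈ (chartAt (E d) x₀ '' O) \ N', s p = pb (chartAt (E d) x₀).symm τ p) →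
      (∀ q ∈ chartAt (E d) x₀ '' (O ∩ K'ᶜ), ContDiffAt ℝ ∞ s q) → SmoothOff τ K →
      SmoothOff (patch x₀ O s τ) K' := by
    intro k s τ hs hsat hτ U φ hU hφ hφK p hp
    by_cases hpO : φ p ∈ O
    · obtain ⟨h1, h2⟩ := keyA k s τ U φ hU hφ p hp hpO
      have h5 : ContDiffAt ℝ ∞ (fun p => (s ((chartAt (E d) x₀ ∘ φ) p),
          fderiv ℝ (chartAt (E d) x₀ ∘ φ) p)) p :=
        ((hsat _ ⟨φ p, ⟨hpO, hφK p hp⟩, rfl⟩).comp p h1).prodMk (h1.fderiv_right (by simp))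
      have h6 : ContDiffAt ℝ ∞ (fun p => (s ((chartAt (E d) x₀ ∘ φ) p)).compContinuousLinearMap
          (fderiv ℝ (chartAt (E d) x₀ ∘ φ) p)) p :=
        Pool.Agent.Y604.SY.contDiff_pull.contDiffAt.comp p h5
      exact (h6.congr_of_eventuallyEq h2).contDiffWithinAt
    · obtain ⟨U', hU', hpU', hU'U, hav, h2⟩ := keyB U φ hU hφ hφK p hp hpO
      have h1 : ContDiffAt ℝ ∞ (pb φ τ) p :=
        (hτ _ φ hU' (hφ.mono hU'U) hav).contDiffAt (hU'.mem_nhds hpU')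
      exact (h1.congr_of_eventuallyEq (h2 k s τ hs)).contDiffWithinAt
  have hbat : ∀ q ∈ chartAt (E d) x₀ '' (O ∩ K'ᶜ), ContDiffAt ℝ ∞ b' q := fun q hq =>
    (hb'.mono hsub).contDiffAt (himg.mem_nhds hq)
  have hsat : ∀ q ∈ chartAt (E d) x₀ '' (O ∩ K'ᶜ), ContDiffAt ℝ ∞ s' q := by
    intro q hq
    have h1 : ContDiffAt ℝ ∞ (pb (chartAt (E d) x₀).symm σ₀) q :=
      (hσ₀ _ (chartAt (E d) x₀).symm himg (hcsym.mono fun p hp =>
        himt (hsub hp).1)).contDiffAt (himg.mem_nhds hq)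
    have h2 : ContDiffAt ℝ ∞ (fun p => pb (chartAt (E d) x₀).symm σ₀ p + extDeriv b' p) q :=
      h1.add (contDiffAt_extDeriv (hbat q hq))
    refine h2.congr_of_eventuallyEq ?_
    filter_upwards [himg.mem_nhds hq] with p hp
    exact hsG p hp
  refine ⟨patch x₀ O b' β, patch x₀ O s' σ, hsm 1 b' β hb'β hbat hβ, hsm 2 s' σ hs'σ hsat hσ,
    ?_, fun x hx => ⟨h3 1 b' β hb'β x hx, h3 2 s' σ hs'σ x hx⟩, h4 1 b' β, ?_⟩
  · intro U φ hU hφ hφK p hp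
    rw [pb_sub]
    by_cases hpO : φ p ∈ O
    · obtain ⟨h1, h2⟩ := keyA 1 b' β U φ hU hφ p hp hpO
      have h2' := (keyA 2 s' σ U φ hU hφ p hp hpO).2.eq_of_nhds
      have h2'' := (keyA 2 (pb (chartAt (E d) x₀).symm σ₀) σ₀ U φ hU hφ p hp hpO).2.eq_of_nhds
      have hq : (chartAt (E d) x₀ ∘ φ) p ∈ chartAt (E d) x₀ '' (O ∩ K'ᶜ) :=
        ⟨φ p, ⟨hpO, hφK p hp⟩, rfl⟩
      have h5 : ContDiffAt ℝ ∞ b' ((chartAt (E d) x₀ ∘ φ) p) := hbat _ hq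
      have h7 : pb φ (patch x₀ O (pb (chartAt (E d) x₀).symm σ₀) σ₀) p = pb φ σ₀ p := by
        have e := h3b 2 (pb (chartAt (E d) x₀).symm σ₀) σ₀ σ₀ (φ p) hpO rfl
        show (patch x₀ O (pb (chartAt (E d) x₀).symm σ₀) σ₀ (φ p)).compContinuousLinearMap
          (mfderiv (𝓡 d) (𝓡 d) φ p) = (σ₀ (φ p)).compContinuousLinearMap
          (mfderiv (𝓡 d) (𝓡 d) φ p)
        rw [e]
      rw [h2.extDeriv_eq, extDeriv_pullback (r := ∞) (h5.differentiableAt (by simp)) h1 (by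
          rw [minSmoothness_of_isRCLikeNormedField]
          exact WithTop.coe_le_coe.2 le_top), h2', ← h7, h2'', hsG _ hq]
      ext v
      simp
    · obtain ⟨U', hU', hpU', hU'U, hav, h2⟩ := keyB U φ hU hφ hφK p hp hpO
      have h1 := hdβ _ φ hU' (hφ.mono hU'U) hav p hpU'
      rw [(h2 1 b' β hb'β).extDeriv_eq, h1, pb_sub, (h2 2 s' σ hs'σ).eq_of_nhds]
  · intro p hp
    rw [h4 2 s' σ p hp.1]
    refine hsG p ?_
    obtain ⟨⟨x, hx, rfl⟩, hx2⟩ := hp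
    exact ⟨x, ⟨hx, fun h => hx2 ⟨x, ⟨h, hx⟩, rfl⟩⟩, rfl⟩

end Pool.Agent.Y891.SY
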