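import Pool.Agent.Y501.SY.StmR

set_option autoImplicit false

/-! Project SYR (helper501): the mollification of a bounded closed form. -/

open Set Filter Topology MeasureTheory Pool.Agent.Y501.SY
open scoped Manifold ContDiff

noncomputable section

namespace Pool.Agent.Y891.SY.MC

variable {d : ℕ}

/-- alternating forms -/
abbrev Al (d n : ℕ) := (E d) [⋀^Fin n]→L[ℝ] ℝ

theorem vol_zero {k : Set (E d)} (h : Cap k) : volume k = 0 := by
  by_contra hne
  have hpos : 0 < volume k := pos_iff_ne_zero.2 hne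
  obtain ⟨q, hq0, hq⟩ : ∃ q : ℝ, 0 < q ∧ ENNReal.ofReal q ≤ volume k := by
    by_cases ht : volume k = ⊤
    · exact ⟨1, one_pos, by rw [ht]; exact le_top⟩
    · refine ⟨(volume k).toReal, ENNReal.toReal_pos hne ht, ?_⟩
      rw [ENNReal.ofReal_toReal ht]
  obtain ⟨η, -, -, -, h1, -, -, h2, -⟩ := h univ isOpen_univ (subset_univ _) q hq0
  have h3 : k ⊆ Function.support η := by
    intro x hx
    have := h1.self_of_nhdsSet x hx
    rw [Function.mem_support, this]
    exact one_ne_zero
  exact absurd (h2.trans_le hq) (not_lt.2 (measure_mono h3))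

theorem int_fderiv_zero {G : Type*} [NormedAddCommGroup G] [NormedSpace ℝ G] [CompleteSpace G]
    {om : E d → G} (h : ContDiff ℝ 1 om) (hc : HasCompactSupport om) :
    ∫ t, fderiv ℝ om t = 0 := by
  have hi : Integrable (fderiv ℝ om) :=
    (h.continuous_fderiv one_ne_zero).integrable_of_hasCompactSupport (hc.fderiv ℝ)
  have hi0 : Integrable om := h.continuous.integrable_of_hasCompactSupport hc
  ext1 v
  rw [ContinuousLinearMap.integral_apply hi]
  have h1 := integral_smul_fderiv_eq_neg_fderiv_smul_of_integrable (μ := volume)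
    (f := fun _ : E d => (1 : ℝ)) (g := om) (v := v) (by simp) (by
      simp only [one_smul]
      exact hi.apply_continuousLinearMap v) (by simpa using hi0)
      (fun x _ => differentiableAt_const _)
      (fun x _ => (h.differentiable one_ne_zero).differentiableAt)
  simpa using h1

theorem int_T {F H : Type*} [NormedAddCommGroup F] [NormedSpace ℝ F] [CompleteSpace F]
    [NormedAddCommGroup H] [NormedSpace ℝ H] [CompleteSpace H] (T : (E d →L[ℝ] F) →L[ℝ] H)
    {om : E d → F} (h : ContDiff ℝ 1 om) (hc : HasCompactSupport om) :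
    ∫ t, T (fderiv ℝ om t) = 0 := by
  have hi : Integrable (fderiv ℝ om) :=
    (h.continuous_fderiv one_ne_zero).integrable_of_hasCompactSupport (hc.fderiv ℝ)
  rw [ContinuousLinearMap.integral_comp_comm _ hi, int_fderiv_zero h hc, map_zero]

/-- the wedge product of a covector and a two-form -/
def wd : (E d →L[ℝ] ℝ) →L[ℝ] Al d 2 →L[ℝ] Al d 3 :=
  (ContinuousLinearMap.compL ℝ (Al d 2) (E d →L[ℝ] Al d 2) (Al d 3)
    (ContinuousAlternatingMap.alternatizeUncurryFinCLM ℝ (E d) ℝ)) ∘L
  (ContinuousLinearMap.smulRightL ℝ (E d) (Al d 2))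

theorem wd_apply (a : E d →L[ℝ] ℝ) (s : Al d 2) :
    wd a s = ContinuousAlternatingMap.alternatizeUncurryFinCLM ℝ (E d) ℝ (a.smulRight s) := rfl

theorem wd_norm (a : E d →L[ℝ] ℝ) (s : Al d 2) : ‖wd a s‖ ≤ 3 * (‖a‖ * ‖s‖) := by
  rw [wd_apply, ContinuousAlternatingMap.alternatizeUncurryFinCLM_apply]
  refine (ContinuousAlternatingMap.norm_alternatizeUncurryFin_le _).trans ?_
  rw [ContinuousLinearMap.norm_smulRight_apply]
  norm_num

theorem sr_meas {A F : Type*} [NormedAddCommGroup A] [NormedSpace ℝ A]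
    [NormedAddCommGroup F] [NormedSpace ℝ F] {T : Type*} [MeasurableSpace T] {μ : Measure T}
    {g : T → (A →L[ℝ] ℝ)} {s : T → F} (hg : AEStronglyMeasurable g μ)
    (hs : AEStronglyMeasurable s μ) : AEStronglyMeasurable (fun t => (g t).smulRight (s t)) μ :=
  ContinuousLinearMap.aestronglyMeasurable_comp₂ (ContinuousLinearMap.smulRightL ℝ A F) hg hs

open scoped Convolution in
theorem conv_T {G A A' F H : Type*} [NormedAddCommGroup G] [NormedSpace ℝ G] [MeasurableSpace G]
    [BorelSpace G] [NormedAddCommGroup A] [NormedSpace ℝ A] [NormedAddCommGroup A']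
    [NormedSpace ℝ A'] [NormedAddCommGroup F] [NormedSpace ℝ F] [CompleteSpace F]
    [NormedAddCommGroup H] [NormedSpace ℝ H] [CompleteSpace H] {μ : Measure G} [SFinite μ]
    [μ.IsAddLeftInvariant] (L : A →L[ℝ] A' →L[ℝ] F) {f : G → A} {g : G → A'}
    (hcg : HasCompactSupport g) (hf : LocallyIntegrable f μ) (hg : ContDiff ℝ 1 g) (x : G)
    (T : (G →L[ℝ] F) →L[ℝ] H) :
    T (fderiv ℝ (f ⋆[L, μ] g) x) = ∫ t, T ((L (f t)).comp (fderiv ℝ g (x - t))) ∂μ := by
  have hex := (hcg.fderiv ℝ).convolutionExists_right (L.precompR G) hf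
    (hg.continuous_fderiv one_ne_zero) x
  rw [(hcg.hasFDerivAt_convolution_right L hf hg x).fderiv, convolution_def,
    ← ContinuousLinearMap.integral_comp_comm _ hex]
  rfl

theorem closed_off {V k : Set (E d)} {s : E d → Al d 2} (hV : IsOpen V) (hk : IsCompact k)
    (hs : ContDiffOn ℝ ∞ s (V \ k)) (hcl : ∀ p ∈ V \ k, extDeriv s p = 0)
    {φ : E d → ℝ} (hφ : ContDiff ℝ ∞ φ) (hφc : HasCompactSupport φ)
    (hφs : tsupport φ ⊆ V \ k) : ∫ t, wd (fderiv ℝ φ t) (s t) = 0 := by
  have hVk : IsOpen (V \ k) := hV.sdiff hk.isClosed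
  set om : E d → Al d 2 := fun t => φ t • s t with hom
  have hom0 : ∀ t, t ∉ tsupport φ → om =ᶠ[𝓝 t] 0 := by
    intro t ht
    filter_upwards [(isClosed_tsupport φ).isOpen_compl.mem_nhds ht] with x hx
    show φ x • s x = 0
    rw [image_eq_zero_of_notMem_tsupport hx, zero_smul]
  have h1 : ContDiff ℝ ∞ om := by
    rw [contDiff_iff_contDiffAt]
    intro t
    by_cases ht : t ∈ tsupport φ
    · exact hφ.contDiffAt.smul (hs.contDiffAt (hVk.mem_nhds (hφs ht)))
    · exact contDiffAt_const.congr_of_eventuallyEq (hom0 t ht)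
  have h2 : HasCompactSupport om := hφc.smul_right
  have h3 : ∀ t, wd (fderiv ℝ φ t) (s t) =
      ContinuousAlternatingMap.alternatizeUncurryFinCLM ℝ (E d) ℝ (fderiv ℝ om t) := by
    intro t
    by_cases ht : t ∈ tsupport φ
    · have h4 : DifferentiableAt ℝ s t :=
        (hs.contDiffAt (hVk.mem_nhds (hφs ht))).differentiableAt (by simp)
      have h5 : DifferentiableAt ℝ φ t := (hφ.differentiable (by simp)).differentiableAt
      have h6 : fderiv ℝ om t = φ t • fderiv ℝ s t + (fderiv ℝ φ t).smulRight (s t) :=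
        fderiv_fun_smul h5 h4
      have h7 : ContinuousAlternatingMap.alternatizeUncurryFinCLM ℝ (E d) ℝ (fderiv ℝ s t) = 0 :=
        hcl t (hφs ht)
      rw [h6, map_add, map_smul, h7, smul_zero, zero_add, wd_apply]
    · rw [(hom0 t ht).fderiv_eq]
      have h4 : fderiv ℝ φ t = 0 := by
        have : t ∉ tsupport (fderiv ℝ φ) := fun h => ht (tsupport_fderiv_subset ℝ h)
        exact image_eq_zero_of_notMem_tsupport this
      have h5 : fderiv ℝ (0 : E d → Al d 2) t = 0 := fderiv_const_apply _
      rw [h4, h5, map_zero, map_zero]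
      rfl
  simp_rw [h3]
  exact int_T _ (h1.of_le (by simp)) h2

theorem split3 {H T : Type*} [NormedAddCommGroup H] [NormedSpace ℝ H] [MeasurableSpace T]
    {μ : Measure T} {f a b c : T → H} (ha : Integrable a μ) (hb : Integrable b μ)
    (hc : Integrable c μ) (ha0 : ∫ t, a t ∂μ = 0) (h : ∀ t, f t = a t + b t + c t) :
    ‖∫ t, f t ∂μ‖ ≤ ‖∫ t, b t ∂μ‖ + ‖∫ t, c t ∂μ‖ := by
  have h1 : ∫ t, f t ∂μ = ∫ t, b t ∂μ + ∫ t, c t ∂μ := by
    simp_rw [h]
    have i01 : Integrable (fun t => a t + b t) μ := ha.add hb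
    rw [integral_add i01 hc, integral_add ha hb, ha0, zero_add]
  rw [h1]
  exact norm_add_le _ _

theorem closed_in {V k : Set (E d)} {s s0 : E d → Al d 2} (hV : IsOpen V) (hk : IsCompact k)
    (hcap : Cap k)
    (hs : ContDiffOn ℝ ∞ s (V \ k)) (hcl : ∀ p ∈ V \ k, extDeriv s p = 0)
    (B : ℝ) (hm : AEStronglyMeasurable s0 volume) (hB : ∀ p, ‖s0 p‖ ≤ B)
    {ψ : E d → ℝ} (hψ : ContDiff ℝ ∞ ψ) (hψc : HasCompactSupport ψ) (hψV : tsupport ψ ⊆ V)
    (h0 : ∀ t ∈ tsupport ψ \ k, s0 t = s t) :
    ∫ t, wd (fderiv ℝ ψ t) (s0 t) = 0 := by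
  have hB0 : 0 ≤ B := (norm_nonneg _).trans (hB 0)
  obtain ⟨M, hM⟩ : ∃ M, ∀ t, ‖fderiv ℝ ψ t‖ ≤ M :=
    (hψ.continuous_fderiv (by simp)).bounded_above_of_compact_support (hψc.fderiv ℝ)
  obtain ⟨M', hM'⟩ : ∃ M, ∀ t, ‖ψ t‖ ≤ M := hψ.continuous.bounded_above_of_compact_support hψc
  have hM0 : 0 ≤ M := (norm_nonneg _).trans (hM 0)
  have hM0' : 0 ≤ M' := (norm_nonneg _).trans (hM' 0)
  set C : ℝ := 3 with hC
  have hC0 : 0 ≤ C := by rw [hC]; norm_num
  have hwd : ∀ (a : E d →L[ℝ] ℝ) t, ‖wd a (s0 t)‖ ≤ C * ‖a‖ * B := by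
    intro a t
    refine (wd_norm _ _).trans ?_
    rw [mul_assoc]
    have := mul_le_mul_of_nonneg_left (hB t) (norm_nonneg a)
    rw [hC]
    linarith
  -- integrability
  have hint : ∀ (g : E d → (E d →L[ℝ] ℝ)), Continuous g → HasCompactSupport g →
      Integrable (fun t => wd (g t) (s0 t)) := by
    intro g hg hgc
    have h1 : Integrable (fun t => C * ‖g t‖ * B) :=
      ((hg.norm.integrable_of_hasCompactSupport hgc.norm).const_mul C).mul_const B
    refine h1.mono' ?_ (Eventually.of_forall fun t => hwd _ _)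
    exact (ContinuousAlternatingMap.alternatizeUncurryFinCLM ℝ (E d)
      ℝ).continuous.comp_aestronglyMeasurable (sr_meas hg.aestronglyMeasurable hm)
  have key : ∀ δ : ℝ, 0 < δ → ‖∫ t, wd (fderiv ℝ ψ t) (s0 t)‖ ≤ (C * M * B + M' * C * B) * δ := by
    intro δ hδ
    obtain ⟨η, hη, hη0, hη1, hηk, -, hηc, hηv, hηi⟩ := hcap univ isOpen_univ (subset_univ _) δ hδ
    set φ : E d → ℝ := fun t => (1 - η t) * ψ t with hφ
    have hφs : ContDiff ℝ ∞ φ := (contDiff_const.sub hη).mul hψ
    have hφt : tsupport φ ⊆ tsupport ψ := tsupport_mul_subset_right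
    have hφc : HasCompactSupport φ := hψc.mul_left
    have hφk : tsupport φ ⊆ V \ k := by
      intro t ht
      refine ⟨hψV (hφt ht), fun htk => ?_⟩
      have h1 : φ =ᶠ[𝓝 t] 0 := by
        filter_upwards [(eventually_nhdsSet_iff_forall.1 hηk) t htk] with x hx
        show (1 - η x) * ψ x = 0
        rw [hx, sub_self, zero_mul]
      exact (notMem_tsupport_iff_eventuallyEq.2 h1) ht
    have e1 := closed_off hV hk hs hcl hφs hφc hφk
    have e2 : ∫ t, wd (fderiv ℝ φ t) (s0 t) = 0 := by
      rw [← e1]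
      congr 1
      funext t
      by_cases ht : t ∈ tsupport φ
      · rw [h0 t ⟨hφt ht, (hφk ht).2⟩]
      · have h4 : fderiv ℝ φ t = 0 := by
          have : t ∉ tsupport (fderiv ℝ φ) := fun h => ht (tsupport_fderiv_subset ℝ h)
          exact image_eq_zero_of_notMem_tsupport this
        rw [h4]
        simp
    have e3 : ∀ t, fderiv ℝ ψ t = fderiv ℝ φ t + η t • fderiv ℝ ψ t + ψ t • fderiv ℝ η t := by
      intro t
      have h5 : DifferentiableAt ℝ ψ t := (hψ.differentiable (by simp)).differentiableAt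
      have h6 : DifferentiableAt ℝ η t := (hη.differentiable (by simp)).differentiableAt
      have h7 : fderiv ℝ φ t = (1 - η t) • fderiv ℝ ψ t + ψ t • fderiv ℝ (fun x => 1 - η x) t :=
        fderiv_fun_mul (h6.const_sub 1) h5
      rw [h7, fderiv_const_sub]
      module
    have c1 : Continuous (fun t => η t • fderiv ℝ ψ t) :=
      hη.continuous.smul (hψ.continuous_fderiv (by simp))
    have c2 : Continuous (fun t => ψ t • fderiv ℝ η t) :=
      hψ.continuous.smul (hη.continuous_fderiv (by simp))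
    have i0 := hint _ (hφs.continuous_fderiv (by simp)) (hφc.fderiv ℝ)
    have i1 := hint _ c1 hηc.smul_right
    have i2 := hint _ c2 hψc.smul_right
    have e4 : ‖∫ t, wd (fderiv ℝ ψ t) (s0 t)‖ ≤ ‖∫ t, wd (η t • fderiv ℝ ψ t) (s0 t)‖ +
        ‖∫ t, wd (ψ t • fderiv ℝ η t) (s0 t)‖ := by
      refine split3 i0 i1 i2 e2 fun t => ?_
      conv_lhs => rw [e3 t]
      rw [map_add, map_add]
      rfl
    have b1 : ‖∫ t, wd (η t • fderiv ℝ ψ t) (s0 t)‖ ≤ (C * M * B) * δ := by
      have h1 : ∫ t, wd (η t • fderiv ℝ ψ t) (s0 t) =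
          ∫ t in Function.support η, wd (η t • fderiv ℝ ψ t) (s0 t) := by
        refine (setIntegral_eq_integral_of_forall_compl_eq_zero fun t ht => ?_).symm
        rw [Function.notMem_support.1 ht, zero_smul]
        simp
      rw [h1]
      refine (norm_setIntegral_le_of_norm_le_const (C := C * M * B)
        (hηv.trans ENNReal.ofReal_lt_top) fun t _ => ?_).trans ?_
      · refine (hwd _ t).trans ?_
        rw [norm_smul]
        have h2 : ‖η t‖ * ‖fderiv ℝ ψ t‖ ≤ M := by
          rw [Real.norm_of_nonneg (hη0 t)]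
          calc η t * ‖fderiv ℝ ψ t‖ ≤ 1 * M :=
                mul_le_mul (hη1 t) (hM t) (norm_nonneg _) zero_le_one
            _ = M := one_mul M
        gcongr
      · have h2 : (volume : Measure (E d)).real (Function.support η) ≤ δ := by
          unfold Measure.real
          exact ENNReal.toReal_le_of_le_ofReal hδ.le hηv.le
        exact mul_le_mul_of_nonneg_left h2 (by positivity)
    have b2 : ‖∫ t, wd (ψ t • fderiv ℝ η t) (s0 t)‖ ≤ (M' * C * B) * δ := by
      have hi : Integrable (fun t => (M' * C * B) * ‖fderiv ℝ η t‖) :=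
        (((hη.continuous_fderiv (by simp)).norm.integrable_of_hasCompactSupport
          (hηc.fderiv ℝ).norm)).const_mul _
      refine (norm_integral_le_of_norm_le hi (Eventually.of_forall fun t => ?_)).trans ?_
      · refine (hwd _ t).trans ?_
        rw [norm_smul]
        have h2 : ‖ψ t‖ * ‖fderiv ℝ η t‖ ≤ M' * ‖fderiv ℝ η t‖ :=
          mul_le_mul_of_nonneg_right (hM' t) (norm_nonneg _)
        calc C * (‖ψ t‖ * ‖fderiv ℝ η t‖) * B ≤ C * (M' * ‖fderiv ℝ η t‖) * B := by gcongr
          _ = (M' * C * B) * ‖fderiv ℝ η t‖ := by ring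
      · rw [integral_const_mul]
        exact mul_le_mul_of_nonneg_left hηi.le (by positivity)
    linarith
  have hK : 0 ≤ C * M * B + M' * C * B := by positivity
  by_contra hne
  have hpos : 0 < ‖∫ t, wd (fderiv ℝ ψ t) (s0 t)‖ := norm_pos_iff.2 hne
  set I : ℝ := ‖∫ t, wd (fderiv ℝ ψ t) (s0 t)‖
  have h1 := key (I / (2 * (C * M * B + M' * C * B + 1))) (by positivity)
  have h2 : (C * M * B + M' * C * B) * (I / (2 * (C * M * B + M' * C * B + 1))) ≤ I / 2 := by
    rw [mul_div_assoc', div_le_div_iff₀ (by positivity) two_pos]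
    nlinarith
  linarith

open scoped Convolution

theorem t_MC : S_MC := by
  intro d V k s ε B ρ W hV hk hkV hcap hs hcl hB hε hρ hW hWV
  have hk0 : volume k = 0 := vol_zero hcap
  -- the local description
  have main : ∀ p0 ∈ W, ContDiffAt ℝ ∞ (mol ρ s) p0 ∧ extDeriv (mol ρ s) p0 = 0 := by
    intro p0 hp0
    obtain ⟨r, hr, hrV⟩ := (isCompact_closedBall p0 ε).exists_cthickening_subset_open hV
      (hWV p0 hp0)
    rw [cthickening_closedBall hr.le hε.le] at hrV
    set Q : Set (E d) := Metric.closedBall p0 (r + ε) with hQ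
    have hQm : MeasurableSet (Q \ k) :=
      Metric.isClosed_closedBall.measurableSet.diff hk.isClosed.measurableSet
    set s0 : E d → Al d 2 := (Q \ k).indicator s with hs0
    have hsub : Q \ k ⊆ V \ k := sdiff_subset_sdiff_left hrV
    have hm : AEStronglyMeasurable s0 volume := by
      rw [hs0, aestronglyMeasurable_indicator_iff hQm]
      exact (hs.continuousOn.mono hsub).aestronglyMeasurable hQm
    have hb : ∀ p, ‖s0 p‖ ≤ max B 0 := by
      intro p
      by_cases hp : p ∈ Q \ k
      · rw [hs0, indicator_of_mem hp]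
        exact (hB p (hsub hp)).trans (le_max_left _ _)
      · rw [hs0, indicator_of_notMem hp, norm_zero]
        exact le_max_right _ _
    have hint : Integrable s0 := by
      have h1 : Integrable (Q.indicator fun _ => max B 0) :=
        (integrable_indicator_iff Metric.isClosed_closedBall.measurableSet).2
          (integrableOn_const (isCompact_closedBall _ _).measure_lt_top.ne)
      refine h1.mono' hm (Eventually.of_forall fun p => ?_)
      by_cases hp : p ∈ Q
      · rw [indicator_of_mem hp]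
        exact hb p
      · rw [indicator_of_notMem hp, hs0, indicator_of_notMem (fun h => hp h.1), norm_zero]
    set ρ' : E d → ℝ := fun y => ρ (-y) with hρ'
    have hρs : ContDiff ℝ ∞ ρ' := hρ.smooth.comp contDiff_neg
    have hρc : HasCompactSupport ρ' := by
      refine HasCompactSupport.intro (isCompact_closedBall 0 ε) fun x hx => ?_
      refine hρ.supp _ ?_
      rw [norm_neg]
      rw [mem_closedBall_zero_iff, not_le] at hx
      exact hx.le
    set L : Al d 2 →L[ℝ] ℝ →L[ℝ] Al d 2 := (ContinuousLinearMap.lsmul ℝ ℝ).flip with hL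
    have hmol : ∀ p ∈ Metric.ball p0 r, mol ρ s p = (s0 ⋆[L, volume] ρ') p := by
      intro p hp
      rw [convolution_def]
      have h1 : ∀ t, L (s0 t) (ρ' (p - t)) = ρ (t - p) • s0 t := by
        intro t
        show ρ (-(p - t)) • s0 t = _
        rw [neg_sub]
      simp_rw [h1]
      rw [← integral_add_left_eq_self (fun t => ρ (t - p) • s0 t) p]
      unfold mol
      have h2 : ∀ᵐ y ∂(volume : Measure (E d)), p + y ∉ k := by
        have h3 : volume ((fun y => p + y) ⁻¹' k) = 0 := by
          rw [measure_preimage_add, hk0]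
        exact measure_eq_zero_iff_ae_notMem.1 h3
      refine integral_congr_ae ?_
      filter_upwards [h2] with y hy
      rw [add_sub_cancel_left]
      by_cases hy2 : ε ≤ ‖y‖
      · rw [hρ.supp y hy2, zero_smul, zero_smul]
      · rw [not_le] at hy2
        have h4 : p + y ∈ Q \ k := by
          refine ⟨?_, hy⟩
          rw [hQ, Metric.mem_closedBall, dist_eq_norm]
          rw [Metric.mem_ball, dist_eq_norm] at hp
          calc ‖p + y - p0‖ = ‖(p - p0) + y‖ := by congr 1; abel
            _ ≤ ‖p - p0‖ + ‖y‖ := norm_add_le _ _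
            _ ≤ r + ε := by linarith
        rw [hs0, indicator_of_mem h4]
    have hev : mol ρ s =ᶠ[𝓝 p0] (s0 ⋆[L, volume] ρ') := by
      filter_upwards [Metric.ball_mem_nhds p0 hr] with p hp using hmol p hp
    constructor
    · refine ContDiffAt.congr_of_eventuallyEq ?_ hev
      exact (hρc.contDiff_convolution_right (n := ⊤) L hint.locallyIntegrable hρs).contDiffAt
    · rw [hev.extDeriv_eq]
      have h2 : extDeriv (s0 ⋆[L, volume] ρ') p0 = ∫ t, wd (fderiv ℝ ρ' (p0 - t)) (s0 t) :=
        conv_T L hρc hint.locallyIntegrable (hρs.of_le (by simp)) p0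
          (ContinuousAlternatingMap.alternatizeUncurryFinCLM ℝ (E d) ℝ)
      rw [h2]
      set ψ : E d → ℝ := fun t => ρ (t - p0) with hψ
      have hψs : ContDiff ℝ ∞ ψ := hρ.smooth.comp (contDiff_id.sub contDiff_const)
      have hψt : tsupport ψ ⊆ Metric.closedBall p0 ε := by
        refine closure_minimal (fun t ht => ?_) Metric.isClosed_closedBall
        by_contra h
        rw [Metric.mem_closedBall, dist_eq_norm, not_le] at h
        exact ht (hρ.supp _ h.le)
      have hψc : HasCompactSupport ψ :=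
        (isCompact_closedBall p0 ε).of_isClosed_subset (isClosed_tsupport _) hψt
      have h3 : ∀ t, fderiv ℝ ψ t = - fderiv ℝ ρ' (p0 - t) := by
        intro t
        have h4 : ψ = fun t => ρ' (p0 - t) := by
          funext t
          show ρ (t - p0) = ρ (-(p0 - t))
          rw [neg_sub]
        rw [h4]
        have h5 : HasFDerivAt (fun t => ρ' (p0 - t))
            ((fderiv ℝ ρ' (p0 - t)).comp (-ContinuousLinearMap.id ℝ (E d))) t := by
          have h8 : HasFDerivAt ρ' (fderiv ℝ ρ' (p0 - t)) (p0 - t) :=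
            (hρs.differentiable (by simp)).differentiableAt.hasFDerivAt
          have h9 : HasFDerivAt (fun t => p0 - t) (-ContinuousLinearMap.id ℝ (E d)) t :=
            (hasFDerivAt_id t).const_sub p0
          exact h8.comp t h9
        rw [h5.fderiv]
        ext v
        simp
      have h6 := closed_in hV hk hcap hs hcl (max B 0) hm hb hψs hψc
        (hψt.trans (hWV p0 hp0)) (fun t ht => by
          have : t ∈ Q \ k := by
            refine ⟨?_, ht.2⟩
            exact Metric.closedBall_subset_closedBall (by linarith) (hψt ht.1)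
          rw [hs0, indicator_of_mem this])
      have h7 : ∫ t, wd (fderiv ℝ ρ' (p0 - t)) (s0 t) = - ∫ t, wd (fderiv ℝ ψ t) (s0 t) := by
        rw [← integral_neg]
        congr 1
        funext t
        rw [h3 t, map_neg, neg_apply, neg_neg]
      rw [h7, h6, neg_zero]
  exact ⟨fun p hp => (main p hp).1.contDiffWithinAt, fun p hp => (main p hp).2⟩

end Pool.Agent.Y891.SY.MC
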